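import Pool.Agent.V7H79.CX.Final
import Pool.Agent.W305.ET.Circ2

/-!
Computations with sets of integers, for bases of any order (the case of order two is a starting file
of MP_12a1af_nt).
-/

set_option autoImplicit false

namespace Pool.Agent.V7H79.CX

open Finset Pointwise Pool.Agent.V7H79.CF Pool.Agent.W305.ET

/-- `G` is one of the sets of a computation of length `S`: each set is a singleton, or the union, the
sum set or the difference set of two earlier ones. -/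
def ComputedIn (S : ℕ) (G : Finset ℤ) : Prop :=
  ∃ F : ℕ → Finset ℤ, (∀ i < S, (∃ c : ℤ, F i = {c}) ∨
    ∃ j < i, ∃ k < i, F i = F j ∪ F k ∨ F i = F j + F k ∨ F i = F j - F k) ∧
    ∃ i < S, F i = G

theorem sym_card {A : Set ℕ} {r : ℕ} (hr : ∀ n, (Pairs A n).ncard ≤ r)
    {X : Finset ℤ} (hX : ∀ x ∈ X, ∃ a ∈ A, (a : ℤ) = x) {M : ℤ} (hM : ∀ x ∈ X, M - x ∈ X) :
    X.card ≤ r := by
  refine le_trans ?_ (hr M.toNat)
  rw [← Set.ncard_coe_finset]
  refine Set.ncard_le_ncard_of_injOn (fun x : ℤ => (x.toNat, (M - x).toNat)) ?_ ?_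
    (pairs_finite A _)
  · intro x hx
    rw [Finset.mem_coe] at hx
    obtain ⟨a, ha, hax⟩ := hX x hx
    obtain ⟨b, hb, hbx⟩ := hX _ (hM x hx)
    have h1 : x.toNat = a := by omega
    have h2 : (M - x).toNat = b := by omega
    have h3 : M.toNat = a + b := by omega
    show x.toNat ∈ A ∧ (M - x).toNat ∈ A ∧ x.toNat + (M - x).toNat = M.toNat
    rw [h1, h2, h3]
    exact ⟨ha, hb, rfl⟩
  · intro x hx y hy hxy
    rw [Finset.mem_coe] at hx hy
    obtain ⟨a, ha, hax⟩ := hX x hx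
    obtain ⟨b, hb, hby⟩ := hX y hy
    simp only [Prod.mk.injEq] at hxy
    omega

theorem circ_card {A : Set ℕ} {r : ℕ} (hr : ∀ n, (Pairs A n).ncard ≤ r)
    {S : ℕ} {G : Finset ℤ} (hG : ComputedIn S G) (hGA : ∀ x ∈ G, ∃ a ∈ A, (a : ℤ) = x) :
    G.card ≤ (4 * S * r ^ 2) ^ (4 * Nat.log 2 r) := by
  obtain ⟨F, hF, i, hi, rfl⟩ := hG
  have hF' : IsComp S F := hF
  have hr1 : 1 ≤ r := by
    obtain ⟨x, hx⟩ := hF'.nonempty i hi
    have := sym_card hr (X := {x}) (M := x + x)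
      (by intro y hy; rw [Finset.mem_singleton] at hy; subst hy; exact hGA _ hx)
      (by intro y hy; rw [Finset.mem_singleton] at hy ⊢; omega)
    simpa using this
  have key : ∀ d, r < 2 ^ d → ¬ Sym {0} (F i) d := by
    rintro d hd ⟨X, hX, ⟨M, hM⟩, hc, _⟩
    have := sym_card hr (X := X) (fun x hx => hGA x (hX hx)) hM
    omega
  set d := Nat.log 2 r with hd
  have h1 : r < 2 ^ (d + 1) := Nat.lt_pow_succ_log_self (by norm_num) r
  rcases Nat.eq_zero_or_pos d with h0 | hpos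
  · rw [h0, mul_zero, pow_zero, Finset.card_le_one]
    intro x hx y hy
    by_contra hxy
    rw [h0] at h1
    refine key 1 h1 (sym_one hx hy hxy ?_ ?_)
    · rw [Finset.mem_singleton]; omega
    · rw [Finset.mem_singleton]; omega
  · have h2 := card_le_sym hF' d i hi (key _ h1)
    have h3 : 4 ^ d ≤ r ^ 2 := by
      have h4 : 2 ^ d ≤ r := Nat.pow_log_le_self 2 (by omega)
      calc 4 ^ d = (2 ^ d) ^ 2 := by rw [← pow_mul, mul_comm, pow_mul]; norm_num
        _ ≤ r ^ 2 := Nat.pow_le_pow_left h4 2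
    have h5 : ex d ≤ 4 * d := by
      obtain ⟨e, he⟩ : ∃ e, d = e + 1 := ⟨d - 1, by omega⟩
      rw [he]; simp only [ex]; omega
    calc (F i).card ≤ (4 * S * 4 ^ d) ^ ex d := h2
      _ ≤ (4 * S * r ^ 2) ^ ex d := Nat.pow_le_pow_left (Nat.mul_le_mul_left _ h3) _
      _ ≤ (4 * S * r ^ 2) ^ (4 * d) := by
        apply Nat.pow_le_pow_right _ h5
        have : 1 ≤ r ^ 2 := Nat.one_le_pow _ _ (by omega)
        have h6 : 1 ≤ S := by omega
        nlinarith [Nat.mul_le_mul h6 this]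

theorem circ_main {A : Set ℕ} {h K : ℕ} (hh : 2 ≤ h)
    (hB : ∃ N : ℕ, ∀ n : ℕ, N ≤ n → (Reps A h n).Nonempty)
    (hK : ∀ n, (Reps A h n).ncard ≤ K) :
    ∃ N₀ : ℕ, ∀ N, N₀ ≤ N → ∀ (S M : ℕ) (G : Fin M → Finset ℤ), (∀ i, ComputedIn S (G i)) →
      (∀ i, ∀ x ∈ G i, ∃ a ∈ A, (a : ℤ) = x) → (∀ a ∈ A, a < N → ∃ i, (a : ℤ) ∈ G i) →
      N ≤ 2 * (M * (16 * S * K ^ 2) ^ (4 * Nat.log 2 (2 * K))) ^ h := by
  classical
  obtain ⟨N₀, hN₀⟩ := basis_count hB
  refine ⟨N₀, fun N hN S M G hG hGA hcov => ?_⟩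
  have hR := fun n => pairs_le hh hK n
  have h1 : ∀ i, #(G i) ≤ (16 * S * K ^ 2) ^ (4 * Nat.log 2 (2 * K)) := by
    intro i
    have := circ_card hR (hG i) (hGA i)
    have e : 4 * S * (2 * K) ^ 2 = 16 * S * K ^ 2 := by ring
    rwa [e] at this
  let H : Finset ℕ := (univ.biUnion G).image Int.toNat
  have hH := hN₀ N hN H (by
    intro a ha hlt
    obtain ⟨i, hi⟩ := hcov a ha hlt
    exact mem_image.2 ⟨(a : ℤ), mem_biUnion.2 ⟨i, mem_univ _, hi⟩, Int.toNat_natCast a⟩)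
  refine hH.trans (Nat.mul_le_mul_left _ (Nat.pow_le_pow_left ?_ h))
  refine card_image_le.trans (card_biUnion_le.trans ?_)
  refine (sum_le_card_nsmul _ _ _ (fun i _ => h1 i)).trans ?_
  rw [smul_eq_mul, card_univ, Fintype.card_fin]

end Pool.Agent.V7H79.CX
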