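import Pool.Agent.V7H79.CX.Path

/-!
Counting the words accepted by a nondeterministic one-tape Turing machine in a given time, if they
represent elements of a set with few representations.
-/

set_option autoImplicit false

namespace Pool.Agent.V7H79.CX

open Finset

/-! ### mixing with cuts -/

theorem mixClosed_of_cut {α : Type} {l k : ℕ} (x : Fin k → ℤ) {P : Set (Fin l → α)}
    (hP : ∀ i, ∀ w ∈ P, ∀ w' ∈ P, (fun j : Fin l => if ((j : ℕ) : ℤ) < x i then w j else w' j) ∈ P) :
    MixClosed (fun j : Fin l => (univ.filter (fun i => x i ≤ ((j : ℕ) : ℤ)) : Finset (Fin k))) P := by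
  classical
  intro w hw w' hw' S
  have h1 : ∀ F : Finset (Fin k),
      (fun j : Fin l => if ∀ i ∈ F, x i ≤ ((j : ℕ) : ℤ) then w j else w' j) ∈ P := by
    intro F
    induction F using Finset.induction_on with
    | empty => simpa using hw
    | insert i F hi ih =>
      have := hP i _ hw' _ ih
      convert this using 1
      funext j
      by_cases hj : ((j : ℕ) : ℤ) < x i
      · rw [if_pos hj, if_neg]
        intro h
        have := h i (mem_insert_self i F)
        omega
      · rw [if_neg hj]
        have : (∀ i' ∈ insert i F, x i' ≤ ((j : ℕ) : ℤ)) ↔ (∀ i' ∈ F, x i' ≤ ((j : ℕ) : ℤ)) := by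
          constructor
          · intro h i' hi'
            exact h i' (mem_insert_of_mem hi')
          · intro h i' hi'
            rw [mem_insert] at hi'
            rcases hi' with rfl | hi'
            · omega
            · exact h i' hi'
        simp only [this]
  have h2 : ∀ F : Finset (Fin k), ∀ u ∈ P,
      (fun j : Fin l => if ∀ i ∈ F, ((j : ℕ) : ℤ) < x i then u j else w' j) ∈ P := by
    intro F u hu
    induction F using Finset.induction_on with
    | empty => simpa using hu
    | insert i F hi ih =>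
      have := hP i _ ih _ hw'
      convert this using 1
      funext j
      by_cases hj : ((j : ℕ) : ℤ) < x i
      · rw [if_pos hj]
        have : (∀ i' ∈ insert i F, ((j : ℕ) : ℤ) < x i') ↔ (∀ i' ∈ F, ((j : ℕ) : ℤ) < x i') := by
          constructor
          · intro h i' hi'
            exact h i' (mem_insert_of_mem hi')
          · intro h i' hi'
            rw [mem_insert] at hi'
            rcases hi' with rfl | hi'
            · exact hj
            · exact h i' hi'
        simp only [this]
      · rw [if_neg hj, if_neg]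
        intro h
        exact hj (h i (mem_insert_self i F))
  have h3 := h2 Sᶜ _ (h1 S)
  convert h3 using 1
  funext j
  by_cases hj : univ.filter (fun i => x i ≤ ((j : ℕ) : ℤ)) = S
  · rw [if_pos hj, if_pos, if_pos]
    · intro i hi
      rw [← hj, mem_filter] at hi
      exact hi.2
    · intro i hi
      rw [mem_compl, ← hj, mem_filter] at hi
      by_contra h
      exact hi ⟨mem_univ _, by omega⟩
  · rw [if_neg hj]
    by_cases ha : ∀ i ∈ Sᶜ, ((j : ℕ) : ℤ) < x i
    · rw [if_pos ha]
      by_cases hb : ∀ i ∈ S, x i ≤ ((j : ℕ) : ℤ)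
      · exfalso
        apply hj
        ext i
        rw [mem_filter]
        constructor
        · rintro ⟨_, h⟩
          by_contra hi
          have := ha i (mem_compl.2 hi)
          omega
        · intro hi
          exact ⟨mem_univ _, hb i hi⟩
      · rw [if_neg hb]
    · rw [if_neg ha]

/-- the classes between the cuts are short -/
theorem class_card {l k w : ℕ} (hw : 1 ≤ w) (hl : l ≤ k * w) (d : Fin k → Fin w)
    (S : Finset (Fin k)) :
    #({j : Fin l | (univ.filter (fun i : Fin k =>
      (((i : ℕ) * w + (d i : ℕ) : ℕ) : ℤ) ≤ ((j : ℕ) : ℤ)) : Finset (Fin k)) = S} : Finset (Fin l))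
      ≤ 2 * w := by
  classical
  set C := ({j : Fin l | (univ.filter (fun i : Fin k =>
      (((i : ℕ) * w + (d i : ℕ) : ℕ) : ℤ) ≤ ((j : ℕ) : ℤ)) : Finset (Fin k)) = S} : Finset (Fin l))
    with hC
  rcases C.eq_empty_or_nonempty with h0 | hne
  · rw [h0, card_empty]; exact Nat.zero_le _
  set j0 := C.min' hne with hj0
  have hmem : ∀ j ∈ C, (j : ℕ) ∈ Ico (j0 : ℕ) ((j0 : ℕ) + 2 * w) := by
    intro j hj
    have h1 : j0 ≤ j := C.min'_le j hj
    rw [mem_Ico]
    refine ⟨h1, ?_⟩
    by_contra hcon
    rw [not_lt] at hcon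
    -- the window after `j0`
    have hj0C : j0 ∈ C := C.min'_mem hne
    rw [hC, mem_filter] at hj hj0C
    have e : (univ.filter (fun i : Fin k =>
      (((i : ℕ) * w + (d i : ℕ) : ℕ) : ℤ) ≤ ((j : ℕ) : ℤ)) : Finset (Fin k)) = univ.filter
        (fun i : Fin k => (((i : ℕ) * w + (d i : ℕ) : ℕ) : ℤ) ≤ ((j0 : ℕ) : ℤ)) := by
      rw [hj.2, hj0C.2]
    have hdm := Nat.div_add_mod (j0 : ℕ) w
    have hml := Nat.mod_lt (j0 : ℕ) (show 0 < w by omega)
    set q := (j0 : ℕ) / w with hq
    have hjl := j.2
    have hwq : (q + 1) * w = w * q + w := by ring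
    have hqk : q + 1 < k := by
      by_contra hk
      rw [not_lt] at hk
      have : k * w ≤ (q + 1) * w := Nat.mul_le_mul_right w hk
      omega
    have hmem : (⟨q + 1, hqk⟩ : Fin k) ∈ univ.filter (fun i : Fin k =>
      (((i : ℕ) * w + (d i : ℕ) : ℕ) : ℤ) ≤ ((j : ℕ) : ℤ)) := by
      rw [mem_filter]
      refine ⟨mem_univ _, ?_⟩
      have := (d ⟨q + 1, hqk⟩).2
      have h5 : (q + 1) * w + ((d ⟨q + 1, hqk⟩ : Fin w) : ℕ) ≤ (j : ℕ) := by omega
      exact_mod_cast h5
    rw [e, mem_filter] at hmem
    have h6 : (q + 1) * w + ((d ⟨q + 1, hqk⟩ : Fin w) : ℕ) ≤ (j0 : ℕ) := by exact_mod_cast hmem.2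
    omega
  have h2 : C.image (fun j : Fin l => (j : ℕ)) ⊆ Ico (j0 : ℕ) ((j0 : ℕ) + 2 * w) := by
    intro n hn
    rw [mem_image] at hn
    obtain ⟨j, hj, rfl⟩ := hn
    exact hmem j hj
  have h3 := card_le_card h2
  rw [card_image_of_injective _ Fin.val_injective, Nat.card_Ico] at h3
  omega

variable {Γ Q : Type} {M : Machine Γ Q}

/-- the cells to the left of the cut `x` -/
def Lft (x : ℤ) : ℤ → Prop := fun j => j < x

theorem uniq_lft (x : ℤ) : Uniq (Lft x) := by
  intro a b a' b' h1 h2 h3 h4 h5 h6
  unfold Lft at *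
  rw [abs_le] at h1 h2
  omega

theorem out_lft {x y : ℤ} (h : y ≤ x) : Out (Lft x) (Lft y) := by
  intro a b _ h3 h4
  unfold Lft at *
  constructor <;> intro _ <;> omega

theorem inn_lft {x y : ℤ} (h : x ≤ y) : Inn (Lft x) (Lft y) := by
  intro a b _ h3 h4
  unfold Lft at *
  constructor <;> intro _ <;> omega

/-- The crossing sequences at different cuts have together at most as many members as there are
steps. -/
theorem Path.sum_seq {ι : Type} [Fintype ι] (x : ι → ℤ) (hx : Function.Injective x) :
    ∀ {c e : Config Γ Q} (r : Path M c e), ∑ i, (r.seq (Lft (x i))).length ≤ r.len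
  | _, _, .nil _ => by simp [Path.seq, Path.len]
  | _, _, .cons (c := c) (d := d) h r => by
    classical
    have ih := Path.sum_seq x hx r
    have h1 : ∀ i, ((Path.cons h r).seq (Lft (x i))).length =
        (r.seq (Lft (x i))).length + (if (Lft (x i) c.p ↔ Lft (x i) d.p) then 0 else 1) := by
      intro i
      by_cases hY : Lft (x i) c.p ↔ Lft (x i) d.p
      · rw [Path.seq_same h r hY, if_pos hY, add_zero]
      · rw [Path.seq_cross h r hY, if_neg hY, List.length_cons]
    rw [sum_congr rfl (fun i _ => h1 i), sum_add_distrib]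
    have h2 : ∑ i, (if (Lft (x i) c.p ↔ Lft (x i) d.p) then 0 else 1) ≤ 1 := by
      have : ∑ i, (if (Lft (x i) c.p ↔ Lft (x i) d.p) then 0 else 1) =
          #{i | ¬ (Lft (x i) c.p ↔ Lft (x i) d.p)} := by
        rw [card_filter]
        refine sum_congr rfl fun i _ => ?_
        by_cases hY : Lft (x i) c.p ↔ Lft (x i) d.p
        · rw [if_pos hY, if_neg (not_not.2 hY)]
        · rw [if_neg hY, if_pos hY]
      rw [this, card_le_one]
      intro i hi j hj
      rw [mem_filter] at hi hj
      apply hx
      have h3 := hi.2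
      have h4 := hj.2
      have h5 := h.near
      unfold Lft at h3 h4
      rw [abs_le] at h5
      omega
    show _ ≤ r.len + 1
    omega

/-- Some cuts in the windows are crossed rarely. -/
theorem Path.few {c e : Config Γ Q} (r : Path M c e) (k w : ℕ) (hw : 1 ≤ w) :
    ∃ d : Fin k → Fin w,
      (∑ i : Fin k, (r.seq (Lft (((i : ℕ) * w + (d i : ℕ) : ℕ) : ℤ))).length) * w ≤ r.len := by
  classical
  have : Nonempty (Fin w) := ⟨⟨0, hw⟩⟩
  have hmin : ∀ i : Fin k, ∃ e : Fin w, ∀ e' : Fin w,
      (r.seq (Lft (((i : ℕ) * w + (e : ℕ) : ℕ) : ℤ))).length ≤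
        (r.seq (Lft (((i : ℕ) * w + (e' : ℕ) : ℕ) : ℤ))).length := by
    intro i
    obtain ⟨e, _, he⟩ := Finset.exists_min_image (univ : Finset (Fin w))
      (fun e => (r.seq (Lft (((i : ℕ) * w + (e : ℕ) : ℕ) : ℤ))).length) univ_nonempty
    exact ⟨e, fun e' => he e' (mem_univ _)⟩
  choose d hd using hmin
  refine ⟨d, ?_⟩
  have h2 : (∑ i : Fin k, (r.seq (Lft (((i : ℕ) * w + (d i : ℕ) : ℕ) : ℤ))).length) * w ≤
      ∑ i : Fin k, ∑ e : Fin w, (r.seq (Lft (((i : ℕ) * w + (e : ℕ) : ℕ) : ℤ))).length := by
    rw [sum_mul]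
    refine sum_le_sum fun i _ => ?_
    calc (r.seq (Lft (((i : ℕ) * w + (d i : ℕ) : ℕ) : ℤ))).length * w
        = ∑ _e : Fin w, (r.seq (Lft (((i : ℕ) * w + (d i : ℕ) : ℕ) : ℤ))).length := by
          rw [sum_const, card_univ, Fintype.card_fin, smul_eq_mul, mul_comm]
      _ ≤ _ := sum_le_sum fun e _ => hd i e
  refine h2.trans ?_
  have h3 := Path.sum_seq (ι := Fin k × Fin w)
    (fun z => (((z.1 : ℕ) * w + (z.2 : ℕ) : ℕ) : ℤ)) (by
      intro z z' e
      have e' : (z.1 : ℕ) * w + (z.2 : ℕ) = (z'.1 : ℕ) * w + (z'.2 : ℕ) := by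
        simp only at e
        exact_mod_cast e
      have b1 := z.2.2
      have b2 := z'.2.2
      have c1 : (z.1 : ℕ) = (z'.1 : ℕ) := by
        have d1 : ((z.1 : ℕ) * w + (z.2 : ℕ)) / w = (z.1 : ℕ) := by
          rw [mul_comm, Nat.mul_add_div (by omega), Nat.div_eq_of_lt b1, add_zero]
        have d2 : ((z'.1 : ℕ) * w + (z'.2 : ℕ)) / w = (z'.1 : ℕ) := by
          rw [mul_comm, Nat.mul_add_div (by omega), Nat.div_eq_of_lt b2, add_zero]
        rw [← d1, ← d2, e']
      have c2 : (z.2 : ℕ) = (z'.2 : ℕ) := by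
        rw [c1] at e'; omega
      exact Prod.ext (Fin.ext c1) (Fin.ext c2)) r
  rw [Fintype.sum_prod_type] at h3
  exact h3

/-! ### encoding of lists of lists -/

/-- the concatenation of the lists, separated by `none` -/
def flat {α : Type} : List (List α) → List (Option α)
  | [] => []
  | A :: R => A.map some ++ none :: flat R

/-- the entries of `flat`, followed by `none` -/
def flatAt {α : Type} (R : List (List α)) (n : ℕ) : Option α := ((flat R)[n]?).getD none

theorem flatAt_lt {α : Type} (A : List α) (R : List (List α)) {n : ℕ} (h : n < A.length) :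
    flatAt (A :: R) n = A[n]? := by
  unfold flatAt flat
  rw [List.getElem?_append_left (by rw [List.length_map]; exact h), List.getElem?_map,
    List.getElem?_eq_getElem h]
  rfl

theorem flatAt_eq {α : Type} (A : List α) (R : List (List α)) : flatAt (A :: R) A.length = none := by
  unfold flatAt flat
  rw [List.getElem?_append_right (by rw [List.length_map]), List.length_map, Nat.sub_self]
  rfl

theorem flatAt_gt {α : Type} (A : List α) (R : List (List α)) (n : ℕ) :
    flatAt (A :: R) (A.length + 1 + n) = flatAt R n := by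
  rw [flatAt, flatAt, flat,
    List.getElem?_append_right (by rw [List.length_map]; omega), List.length_map]
  have : A.length + 1 + n - A.length = n + 1 := by omega
  rw [this, List.getElem?_cons_succ]

theorem flatAt_inj {α : Type} : ∀ {R R' : List (List α)}, R.length = R'.length →
    (∀ n, flatAt R n = flatAt R' n) → R = R'
  | [], [], _, _ => rfl
  | [], _ :: _, h, _ => by simp at h
  | _ :: _, [], h, _ => by simp at h
  | A :: R, A' :: R', hl, h => by
    have hlen : A.length = A'.length := by
      rcases lt_trichotomy A.length A'.length with hlt | heq | hgt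
      · exfalso
        have := h A.length
        rw [flatAt_eq, flatAt_lt A' R' hlt, List.getElem?_eq_getElem hlt] at this
        exact absurd this (by simp)
      · exact heq
      · exfalso
        have := h A'.length
        rw [flatAt_eq, flatAt_lt A R hgt, List.getElem?_eq_getElem hgt] at this
        exact absurd this (by simp)
    have hA : A = A' := by
      apply List.ext_getElem? 
      intro n
      by_cases hn : n < A.length
      · have := h n
        rw [flatAt_lt A R hn, flatAt_lt A' R' (by omega)] at this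
        exact this
      · rw [List.getElem?_eq_none (by omega), List.getElem?_eq_none (by omega)]
    subst hA
    have hR : R = R' := by
      apply flatAt_inj (by simpa using hl)
      intro n
      rw [← flatAt_gt A R n, ← flatAt_gt A R' n]
      exact h _
    rw [hR]

theorem flat_length {α : Type} : ∀ R : List (List α),
    (flat R).length = (R.map List.length).sum + R.length
  | [] => rfl
  | A :: R => by
    have := flat_length R
    simp only [flat, List.length_append, List.length_map, List.length_cons, List.map_cons,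
      List.sum_cons, this]
    omega

theorem flatAt_big {α : Type} (R : List (List α)) {n : ℕ} (h : (flat R).length ≤ n) :
    flatAt R n = none := by
  unfold flatAt
  rw [List.getElem?_eq_none h]
  rfl

/-- the tape with the word `v` (encoded by `enc`) at the cells `0, ..., |v| - 1` -/
def tape (M : Machine Γ Q) (enc : ℕ → Γ) (v : List ℕ) (j : ℤ) : Γ :=
  if 0 ≤ j then (v[j.toNat]?).elim M.blank enc else M.blank

/-- the initial configuration -/
def init (M : Machine Γ Q) (enc : ℕ → Γ) (s : ℤ) (v : List ℕ) : Config Γ Q :=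
  ⟨M.start, s, tape M enc v⟩

/-- The machine accepts the word `v`, with the head starting at the cell `s`, in at most `T` steps. -/
def Accepts (M : Machine Γ Q) (enc : ℕ → Γ) (s : ℤ) (v : List ℕ) (T : ℕ) : Prop :=
  ∃ (d : Config Γ Q) (r : Path M (init M enc s v) d), r.len ≤ T ∧ d.q ∈ M.accept

/-- the list of the digits of a word -/
def toList {b l : ℕ} (w : Fin l → Fin b) : List ℕ := List.ofFn (fun j => (w j : ℕ))

theorem tape_mix (M : Machine Γ Q) (enc : ℕ → Γ) {b l : ℕ} (w w' : Fin l → Fin b) (x : ℤ) :
    tape M enc (toList (fun j : Fin l => if ((j : ℕ) : ℤ) < x then w j else w' j)) =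
      fun j => if j < x then tape M enc (toList w) j else tape M enc (toList w') j := by
  funext j
  unfold tape toList
  by_cases hj : 0 ≤ j
  · simp only [if_pos hj, List.getElem?_ofFn]
    by_cases hl : j.toNat < l
    · simp only [dif_pos hl, Option.elim_some]
      have e : ((j.toNat : ℕ) : ℤ) = j := Int.toNat_of_nonneg hj
      by_cases hx : j < x
      · rw [if_pos hx, if_pos (by rw [e]; exact hx)]
      · rw [if_neg hx, if_neg (by rw [e]; exact hx)]
    · simp only [dif_neg hl, Option.elim_none, ite_self]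
  · simp only [if_neg hj, ite_self]

theorem init_mix (M : Machine Γ Q) (enc : ℕ → Γ) (s : ℤ) {b l : ℕ} (w w' : Fin l → Fin b) (x : ℤ) :
    init M enc s (toList (fun j : Fin l => if ((j : ℕ) : ℤ) < x then w j else w' j)) =
      mixc (Lft x) (init M enc s (toList w)) (init M enc s (toList w')) := by
  unfold init mixc
  congr 1
  · rw [ite_self]
  · rw [ite_self]
  · rw [tape_mix]
    funext j
    unfold Lft
    by_cases h : j < x
    · rw [if_pos h, if_pos h]
    · rw [if_neg h, if_neg h]

theorem tm_card {A : Set ℕ} {R : ℕ} (hR : ∀ n, (Pairs A n).ncard ≤ R) {b l k w T : ℕ}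
    (hb : 1 ≤ b) (hw : 1 ≤ w) (hl : l ≤ k * w) [Fintype Q] (M : Machine Γ Q)
    (enc : ℕ → Γ) (s : ℤ)
    (W : Finset (Fin l → Fin b)) (hW : ∀ v ∈ W, Accepts M enc s (toList v) T)
    (hA : ∀ (v : Fin l → Fin b) (T' : ℕ), Accepts M enc s (toList v) T' → val b v ∈ A) :
    #W ≤ (w ^ k * (Fintype.card Q + 1) ^ (T / w + k)) * (b ^ (2 * w)) ^ (Nat.log 2 R) := by
  classical
  let cuts : (Fin k → Fin w) → Fin k → ℤ := fun d i => (((i : ℕ) * w + (d i : ℕ) : ℕ) : ℤ)
  let P : (Fin k → Fin w) × (Fin (T / w + k) → Option Q) → Finset (Fin l → Fin b) := fun σ =>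
    univ.filter (fun v => ∃ (d : Config Γ Q) (r : Path M (init M enc s (toList v)) d),
      d.q ∈ M.accept ∧ ∑ i, (r.seq (Lft (cuts σ.1 i))).length ≤ T / w ∧
      ∀ n : Fin (T / w + k), flatAt (List.ofFn (fun i => r.seq (Lft (cuts σ.1 i)))) n = σ.2 n)
  have hcov : W ⊆ univ.biUnion P := by
    intro v hv
    obtain ⟨e, r, hr, he⟩ := hW v hv
    obtain ⟨d, hd⟩ := r.few k w hw
    rw [mem_biUnion]
    refine ⟨(d, fun n => flatAt (List.ofFn (fun i => r.seq (Lft (cuts d i)))) n), mem_univ _, ?_⟩
    rw [mem_filter]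
    refine ⟨mem_univ _, e, r, he, ?_, fun n => rfl⟩
    rw [Nat.le_div_iff_mul_le (by omega)]
    exact hd.trans hr
  have hP : ∀ σ ∈ (univ : Finset ((Fin k → Fin w) × (Fin (T / w + k) → Option Q))),
      #(P σ) ≤ (b ^ (2 * w)) ^ (Nat.log 2 R) := by
    intro σ _
    refine mix_card hR (fun j : Fin l => (univ.filter (fun i => cuts σ.1 i ≤ ((j : ℕ) : ℤ)) :
      Finset (Fin k))) (fun S => class_card hw hl σ.1 S) (P σ) ?_ ?_ hb
    · refine mixClosed_of_cut (cuts σ.1) ?_
      intro i v hv v' hv'
      rw [mem_coe, mem_filter] at hv hv'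
      obtain ⟨_, e, r, he, hr, hf⟩ := hv
      obtain ⟨_, e', r', he', hr', hf'⟩ := hv'
      have hlen : ∀ (f : Fin k → List Q), ∑ i, (f i).length ≤ T / w →
          (flat (List.ofFn f)).length ≤ T / w + k := by
        intro f hf
        rw [flat_length, List.length_ofFn, List.map_ofFn, List.sum_ofFn]
        exact Nat.add_le_add_right hf k
      have heq : (List.ofFn (fun i => r.seq (Lft (cuts σ.1 i)))) =
          (List.ofFn (fun i => r'.seq (Lft (cuts σ.1 i)))) := by
        apply flatAt_inj (by rw [List.length_ofFn, List.length_ofFn])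
        intro n
        by_cases hn : n < T / w + k
        · rw [hf ⟨n, hn⟩, hf' ⟨n, hn⟩]
        · rw [flatAt_big _ ((hlen _ hr).trans (not_lt.1 hn)),
            flatAt_big _ ((hlen _ hr').trans (not_lt.1 hn))]
      have heq' : ∀ i', r.seq (Lft (cuts σ.1 i')) = r'.seq (Lft (cuts σ.1 i')) := fun i' =>
        congrFun (List.ofFn_injective heq) i'
      obtain ⟨g0, r'', g1, g2⟩ := mixing (r.len + r'.len) (Lft (cuts σ.1 i)) (uniq_lft _) r r' rfl
        Iff.rfl (heq' i)
      rw [mem_coe, mem_filter]
      refine ⟨mem_univ _, ?_⟩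
      rw [init_mix]
      have hall : ∀ i', r''.seq (Lft (cuts σ.1 i')) = r.seq (Lft (cuts σ.1 i')) := by
        intro i'
        rcases le_total (cuts σ.1 i') (cuts σ.1 i) with hle | hle
        · exact g1 _ (out_lft hle)
        · rw [g2 _ (inn_lft hle), heq' i']
      refine ⟨_, r'', ?_, ?_, ?_⟩
      · show (if _ then e.q else e'.q) ∈ M.accept
        split_ifs
        · exact he
        · exact he'
      · rw [sum_congr rfl (fun i' _ => by rw [hall i'])]
        exact hr
      · intro n
        rw [← hf n]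
        congr 2
        funext i'
        exact hall i'
    · intro v hv
      rw [mem_filter] at hv
      obtain ⟨_, e, r, he, _⟩ := hv
      exact hA v r.len ⟨e, r, le_refl _, he⟩
  calc #W ≤ #(univ.biUnion P) := card_le_card hcov
    _ ≤ ∑ σ, #(P σ) := card_biUnion_le
    _ ≤ #(univ : Finset ((Fin k → Fin w) × (Fin (T / w + k) → Option Q))) •
        (b ^ (2 * w)) ^ (Nat.log 2 R) := sum_le_card_nsmul _ _ _ hP
    _ = _ := by
      rw [smul_eq_mul, card_univ, Fintype.card_prod, Fintype.card_fun, Fintype.card_fun,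
        Fintype.card_fin, Fintype.card_fin, Fintype.card_fin, Fintype.card_option]

end Pool.Agent.V7H79.CX
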