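import Pool.Agent.V7H79.CX.Count

/-!
Bases whose expansions are accepted by a nondeterministic one-tape Turing machine.
-/

set_option autoImplicit false

namespace Pool.Agent.V7H79.CX

open Finset Pool.Agent.V7H79.CF Filter

theorem ofDigits_toList (b : ℕ) : ∀ {l : ℕ} (w : Fin l → Fin b),
    Nat.ofDigits b (toList w) = val b w
  | 0, w => by simp [toList, val]
  | l + 1, w => by
    have ih := ofDigits_toList b (fun j : Fin l => w j.succ)
    unfold toList val at *
    rw [List.ofFn_succ, Nat.ofDigits_cons, ih, Fin.sum_univ_succ, mul_sum]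
    simp only [Fin.val_zero, pow_zero, mul_one, Fin.val_succ]
    congr 1
    refine sum_congr rfl fun j _ => ?_
    rw [pow_succ]
    ring

theorem exists_word {b a l : ℕ} (hb : 2 ≤ b) (ha : (Nat.digits b a).length = l) :
    ∃ w : Fin l → Fin b, toList w = Nat.digits b a ∧ val b w = a := by
  subst ha
  refine ⟨fun j => ⟨(Nat.digits b a)[j], Nat.digits_lt_base hb (List.getElem_mem j.2)⟩, ?_, ?_⟩
  · unfold toList
    exact List.ofFn_getElem
  · rw [← ofDigits_toList]
    have : toList (fun j : Fin (Nat.digits b a).length =>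
      (⟨(Nat.digits b a)[j], Nat.digits_lt_base hb (List.getElem_mem j.2)⟩ : Fin b)) =
        Nat.digits b a := by
      unfold toList
      exact List.ofFn_getElem
    rw [this, Nat.ofDigits_digits]

/-- A basis has many elements with exactly `l` digits, for infinitely many `l`. -/
theorem many_digits {A : Set ℕ} {h b : ℕ} (hh : 1 ≤ h) (hb : 2 ≤ b)
    (hB : ∃ N : ℕ, ∀ n : ℕ, N ≤ n → (Reps A h n).Nonempty) (L₀ : ℕ) :
    ∃ l, L₀ ≤ l ∧ ∃ G : Finset ℕ, (∀ a ∈ G, a ∈ A ∧ b ^ (l - 1) ≤ a ∧ a < b ^ l) ∧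
      (b : ℝ) ^ ((l : ℝ) / (2 * h)) ≤ #G := by
  classical
  by_contra hcon
  push Not at hcon
  obtain ⟨N₀, hN₀⟩ := basis_count hB
  have hb0 : (0 : ℝ) < b := by positivity
  have hb1 : (1 : ℝ) < b := by exact_mod_cast (show 1 < b by omega)
  have hh0 : (0 : ℝ) < h := by exact_mod_cast hh
  set y : ℝ := (b : ℝ) ^ ((1 : ℝ) / (2 * h)) with hy
  have hy1 : 1 < y := Real.one_lt_rpow hb1 (by positivity)
  have hy0 : 0 < y := by linarith
  have hyh : y ^ (2 * h) = b := by
    rw [hy, ← Real.rpow_natCast, ← Real.rpow_mul hb0.le]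
    push_cast
    rw [one_div, inv_mul_cancel₀ (by positivity), Real.rpow_one]
  have hyl : ∀ l : ℕ, (b : ℝ) ^ ((l : ℝ) / (2 * h)) = y ^ l := by
    intro l
    rw [hy, ← Real.rpow_natCast, ← Real.rpow_mul hb0.le]
    congr 1
    ring
  set B₀ : ℝ := (b : ℝ) ^ L₀ with hB₀
  have hB₀0 : 0 < B₀ := by positivity
  -- a large `L`
  have hev : ∀ᶠ n : ℕ in atTop, 2 * (B₀ + n) < y ^ n ∧ N₀ ≤ n ∧ L₀ ≤ n := by
    have h1 := tendsto_pow_const_div_const_pow_of_one_lt 1 hy1
    have h2 : ∀ᶠ n : ℕ in atTop, (n : ℝ) ^ 1 / y ^ n < 1 / (2 * (B₀ + 1)) :=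
      h1.eventually (gt_mem_nhds (by positivity))
    filter_upwards [h2, eventually_ge_atTop N₀, eventually_ge_atTop L₀, eventually_ge_atTop 1]
      with n hn h3 h4 h5
    refine ⟨?_, h3, h4⟩
    rw [pow_one, div_lt_div_iff₀ (by positivity) (by positivity)] at hn
    have h6 : (1 : ℝ) ≤ n := by exact_mod_cast h5
    nlinarith
  obtain ⟨L, hL1, hL2, hL3⟩ := hev.exists
  let C : ℕ → Finset ℕ := fun l => (range (b ^ l)).filter (fun a => a ∈ A ∧ b ^ (l - 1) ≤ a)
  have hC : ∀ l, L₀ ≤ l → (#(C l) : ℝ) ≤ y ^ l := by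
    intro l hl
    have := hcon l hl (C l) (by
      intro a ha
      rw [mem_filter, mem_range] at ha
      exact ⟨ha.2.1, ha.2.2, ha.1⟩)
    rw [hyl] at this
    exact this.le
  let G : Finset ℕ := (range (b ^ L)).filter (fun a => a ∈ A)
  have hG : G ⊆ range (b ^ L₀) ∪ (Ico (L₀ + 1) (L + 1)).biUnion C := by
    intro a ha
    rw [mem_filter, mem_range] at ha
    rw [mem_union, mem_range, mem_biUnion]
    by_cases hlt : a < b ^ L₀
    · exact Or.inl hlt
    · right
      have ha0 : a ≠ 0 := by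
        rintro rfl
        exact hlt (by positivity)
      have h1 : b ^ Nat.log b a ≤ a := Nat.pow_log_le_self b ha0
      have h2 : a < b ^ (Nat.log b a + 1) := Nat.lt_pow_succ_log_self (by omega) a
      refine ⟨Nat.log b a + 1, ?_, ?_⟩
      · rw [mem_Ico]
        constructor
        · have : L₀ ≤ Nat.log b a := by
            rw [not_lt] at hlt
            exact Nat.le_log_of_pow_le (by omega) hlt
          omega
        · have : Nat.log b a < L := Nat.log_lt_of_lt_pow ha0 ha.1
          omega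
      · rw [mem_filter, mem_range, Nat.add_sub_cancel]
        exact ⟨h2, ha.2, h1⟩
  have hGc : (#G : ℝ) ≤ B₀ + L * y ^ L := by
    have h1 : #G ≤ b ^ L₀ + ∑ l ∈ Ico (L₀ + 1) (L + 1), #(C l) := by
      refine (card_le_card hG).trans ((card_union_le _ _).trans ?_)
      rw [card_range]
      exact Nat.add_le_add_left card_biUnion_le _
    have h2 : (#G : ℝ) ≤ (b : ℝ) ^ L₀ + ∑ l ∈ Ico (L₀ + 1) (L + 1), (#(C l) : ℝ) := by
      exact_mod_cast h1
    refine h2.trans (add_le_add le_rfl ?_)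
    calc ∑ l ∈ Ico (L₀ + 1) (L + 1), (#(C l) : ℝ) ≤ ∑ _l ∈ Ico (L₀ + 1) (L + 1), y ^ L := by
          refine sum_le_sum fun l hl => ?_
          rw [mem_Ico] at hl
          exact (hC l (by omega)).trans (pow_le_pow_right₀ hy1.le (by omega))
      _ = ((L - L₀ : ℕ) : ℝ) * y ^ L := by
          rw [sum_const, Nat.card_Ico, nsmul_eq_mul]
          congr 2
          omega
      _ ≤ L * y ^ L := by
          apply mul_le_mul_of_nonneg_right _ (by positivity)
          exact_mod_cast Nat.sub_le L L₀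
  have hcount := hN₀ (b ^ L) (hL2.trans (Nat.lt_pow_self (by omega)).le) G (by
    intro a ha hlt
    rw [mem_filter, mem_range]
    exact ⟨hlt, ha⟩)
  have h3 : (b : ℝ) ^ L ≤ 2 * (#G : ℝ) ^ h := by exact_mod_cast hcount
  have h4 : (2 : ℝ) * (#G : ℝ) ^ h ≤ (2 * (#G : ℝ)) ^ h := by
    rw [mul_pow]
    apply mul_le_mul_of_nonneg_right _ (by positivity)
    calc (2 : ℝ) = 2 ^ 1 := (pow_one 2).symm
      _ ≤ 2 ^ h := pow_le_pow_right₀ (by norm_num) hh
  have h5 : (b : ℝ) ^ L = (y ^ (2 * L)) ^ h := by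
    rw [← hyh, ← pow_mul, ← pow_mul]
    congr 1
    ring
  have h6 : y ^ (2 * L) ≤ 2 * (#G : ℝ) := by
    refine le_of_pow_le_pow_left₀ (show h ≠ 0 by omega) (by positivity) ?_
    rw [← h5]
    exact h3.trans h4
  have h7 : y ^ (2 * L) ≤ 2 * (B₀ + L) * y ^ L := by
    have hyL : 1 ≤ y ^ L := one_le_pow₀ hy1.le
    calc y ^ (2 * L) ≤ 2 * (B₀ + L * y ^ L) := h6.trans (by linarith)
      _ ≤ 2 * (B₀ + L) * y ^ L := by nlinarith
  have h8 : y ^ L ≤ 2 * (B₀ + L) := by
    have : y ^ L * y ^ L ≤ 2 * (B₀ + L) * y ^ L := by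
      rw [← pow_add, ← two_mul]; exact h7
    exact le_of_mul_le_mul_right this (by positivity)
  linarith

theorem tm_main {A : Set ℕ} {h : ℕ} (hh : 2 ≤ h)
    (hB : ∃ N : ℕ, ∀ n : ℕ, N ≤ n → (Reps A h n).Nonempty) {b : ℕ} (hb : 2 ≤ b) {Γ Q : Type}
    [Fintype Q] (M : Machine Γ Q) (enc : ℕ → Γ) (s : ℕ → ℤ) (T : ℕ → ℕ)
    (sound : ∀ (v : List ℕ) (T' : ℕ), (∀ d ∈ v, d < b) → Accepts M enc (s v.length) v T' →
      Nat.ofDigits b v ∈ A)
    (complete : ∀ a ∈ A, Accepts M enc (s (Nat.digits b a).length) (Nat.digits b a)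
      (T (Nat.digits b a).length)) :
    ∃ c : ℝ, 0 < c ∧ ∀ L₀ : ℕ, ∃ l, L₀ ≤ l ∧ ∃ n, n < h * b ^ l ∧
      Real.exp (c * ((l : ℝ) ^ 2 / ((T l : ℝ) + l))) ≤ 2 * ((Reps A h n).ncard : ℝ) := by
  classical
  have hh0 : (0 : ℝ) < h := by positivity
  have hh1 : (1 : ℝ) ≤ h := by exact_mod_cast (show 1 ≤ h by omega)
  have hlog2 : 0 < Real.log 2 := Real.log_pos (by norm_num)
  have hlog2'' : Real.log 2 < 0.7 := by
    have := Real.log_two_lt_d9; linarith
  set lq := Real.log ((Fintype.card Q : ℝ) + 1) with hlq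
  have hQ0 : (0 : ℝ) ≤ (Fintype.card Q : ℝ) := Nat.cast_nonneg _
  have hlq0 : 0 ≤ lq := Real.log_nonneg (by linarith)
  set κ : ℝ := Real.log 2 / (16 * h * (lq + 1)) with hκ
  have hκ0 : 0 < κ := by positivity
  have hκ2 : κ * (lq + 1) = Real.log 2 / (16 * h) := by rw [hκ]; field_simp
  have hκ3 : Real.log 2 / (16 * h) ≤ 1 / 16 := by
    rw [div_le_div_iff₀ (by positivity) (by norm_num)]
    nlinarith
  have hκ4 : κ ≤ Real.log 2 / (16 * h) := by
    rw [← hκ2]
    exact le_mul_of_one_le_right hκ0.le (by linarith)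
  have hκ1 : κ ≤ 1 / 16 := hκ4.trans hκ3
  set η : ℝ := κ ^ 2 / 8 with hη
  have hη0 : 0 < η := by positivity
  have hη1 : η ≤ 1 := by
    rw [hη]; nlinarith
  refine ⟨Real.log 2 * η / (32 * h), by positivity, fun L₀ => ?_⟩
  obtain ⟨l, hl, G, hG, hGc⟩ := many_digits (show 1 ≤ h by omega) hb hB (max L₀ 1)
  have hl0 : L₀ ≤ l := (le_max_left _ _).trans hl
  have hl1 : 1 ≤ l := (le_max_right _ _).trans hl
  refine ⟨l, hl0, ?_⟩
  set L : ℝ := (l : ℝ) with hL
  have hL1 : (1 : ℝ) ≤ L := by rw [hL]; exact_mod_cast hl1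
  set t : ℝ := (T l : ℝ) with ht
  have ht0 : 0 ≤ t := Nat.cast_nonneg _
  set X : ℝ := L ^ 2 / (t + L) with hX
  have hX0 : 0 < X := by positivity
  have hXe : X * (t + L) = L ^ 2 := by
    rw [hX]; field_simp
  have hXL : X ≤ L := by
    rw [hX, div_le_iff₀ (by positivity)]
    nlinarith
  set lam := Real.log b with hlam
  have hlam2 : Real.log 2 ≤ lam := by
    apply Real.log_le_log (by norm_num)
    exact_mod_cast hb
  have hlam0 : 0 < lam := by linarith
  have hb1 : (1 : ℝ) < b := by exact_mod_cast (show 1 < b by omega)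
  -- an element of `G`
  have hGne : G.Nonempty := by
    rw [← card_pos]
    have : (0 : ℝ) < #G := lt_of_lt_of_le (Real.rpow_pos_of_pos (by linarith) _) hGc
    exact_mod_cast this
  obtain ⟨a₀, ha₀⟩ := hGne
  obtain ⟨ha₀A, _, ha₀l⟩ := hG a₀ ha₀
  rcases lt_or_ge (η * X) 1 with hsmall | hbig
  · refine ⟨h * a₀, by
      exact Nat.mul_lt_mul_of_pos_left ha₀l (by omega), ?_⟩
    have h1 : 1 ≤ (Reps A h (h * a₀)).ncard := by
      rw [Nat.one_le_iff_ne_zero]
      intro h0
      rw [Set.ncard_eq_zero (reps_finite A h _)] at h0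
      have : Multiset.replicate h a₀ ∈ Reps A h (h * a₀) := by
        refine ⟨Multiset.card_replicate h a₀, fun a ha => ?_, ?_⟩
        · rw [Multiset.eq_of_mem_replicate ha]; exact ha₀A
        · rw [Multiset.sum_replicate, smul_eq_mul]
      rw [h0] at this
      exact this
    have h2 : (1 : ℝ) ≤ ((Reps A h (h * a₀)).ncard : ℝ) := by exact_mod_cast h1
    have h3 : Real.log 2 * η / (32 * h) * X ≤ Real.log 2 := by
      calc Real.log 2 * η / (32 * h) * X = Real.log 2 * (η * X / (32 * h)) := by ring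
        _ ≤ Real.log 2 * 1 := by
            apply mul_le_mul_of_nonneg_left _ hlog2.le
            rw [div_le_one (by positivity)]
            linarith
        _ = Real.log 2 := mul_one _
    calc Real.exp (Real.log 2 * η / (32 * h) * X) ≤ Real.exp (Real.log 2) := Real.exp_le_exp.2 h3
      _ = 2 := Real.exp_log (by norm_num)
      _ ≤ _ := by linarith
  -- the main case
  set A' : Set ℕ := {a ∈ A | a < b ^ l} with hA'
  obtain ⟨n, hn, hmax⟩ := Finset.exists_max_image (range (h * b ^ l)) (fun n => (Reps A' h n).ncard)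
    ⟨0, by rw [mem_range]; positivity⟩
  rw [mem_range] at hn
  set K := (Reps A' h n).ncard with hK
  have hKall : ∀ n', (Reps A' h n').ncard ≤ K := by
    intro n'
    by_cases hn' : n' < h * b ^ l
    · exact hmax n' (mem_range.2 hn')
    · have : Reps A' h n' = ∅ := by
        rw [Set.eq_empty_iff_forall_notMem]
        rintro z ⟨hz1, hz2, hz3⟩
        apply hn'
        rw [← hz3]
        have h2 := Multiset.sum_le_card_nsmul z (b ^ l - 1) (fun a ha => by
          have := (hz2 a ha).2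
          omega)
        rw [hz1, smul_eq_mul] at h2
        refine lt_of_le_of_lt h2 ?_
        have hbl : 0 < b ^ l := by positivity
        exact Nat.mul_lt_mul_of_pos_left (by omega) (by omega)
      rw [this, Set.ncard_empty]
      exact Nat.zero_le _
  have hR := fun n' => pairs_le hh hKall n'
  -- parameters
  set k := ⌊η * X⌋₊ with hk
  have hk1 : 1 ≤ k := by
    rw [hk, Nat.one_le_floor_iff]
    exact hbig
  have hkX : (k : ℝ) ≤ η * X := Nat.floor_le (by positivity)
  have hkX' : η * X < k + 1 := Nat.lt_floor_add_one _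
  have hk1' : (1 : ℝ) ≤ k := by exact_mod_cast hk1
  have hkL : (k : ℝ) ≤ η * L := hkX.trans (mul_le_mul_of_nonneg_left hXL hη0.le)
  have hkL' : (k : ℝ) ≤ L := by nlinarith
  set w := l / k + 1 with hw
  have hw1 : 1 ≤ w := Nat.le_add_left 1 _
  have hlkw : l ≤ k * w := by
    rw [hw]
    exact (Nat.lt_mul_div_succ l (by omega)).le
  have hwL : (w : ℝ) ≤ 2 * L / k := by
    have h1 : ((l / k : ℕ) : ℝ) ≤ L / k := Nat.cast_div_le
    have h2 : (1 : ℝ) ≤ L / k := by
      rw [one_le_div (by positivity)]; exact hkL'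
    rw [hw]
    push_cast
    have : 2 * L / k = L / k + L / k := by ring
    rw [this]
    linarith
  have hwL' : L / k ≤ w := by
    rw [div_le_iff₀ (by positivity)]
    have : ((l : ℕ) : ℝ) ≤ ((k * w : ℕ) : ℝ) := by exact_mod_cast hlkw
    push_cast at this
    rw [hL]
    linarith
  -- the words
  set W : Finset (Fin l → Fin b) := univ.filter (fun v => Accepts M enc (s l) (toList v) (T l))
    with hW
  have hlen : ∀ v : Fin l → Fin b, (toList v).length = l := fun v => by
    unfold toList; exact List.length_ofFn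
  have hcard := tm_card (A := A') (R := 2 * K) hR (b := b) (l := l) (k := k) (w := w) (T := T l)
    (by omega) hw1 hlkw M enc (s l) W (fun v hv => (mem_filter.1 hv).2) (by
      intro v T' hv
      refine ⟨?_, val_lt v⟩
      rw [← ofDigits_toList]
      apply sound _ T'
      · intro d hd
        unfold toList at hd
        rw [List.mem_ofFn] at hd
        obtain ⟨j, rfl⟩ := hd
        exact (v j).2
      · rw [hlen]; exact hv)
  have hGW : #G ≤ #W := by
    have hw' : ∀ a ∈ G, ∃ v ∈ W, val b v = a := by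
      intro a ha
      obtain ⟨h1, h2, h3⟩ := hG a ha
      have ha0 : a ≠ 0 := by
        rintro rfl
        have : 0 < b ^ (l - 1) := by positivity
        omega
      have h4 : (Nat.digits b a).length = l := by
        rw [Nat.length_digits b a (by omega) ha0]
        have h5 : l - 1 ≤ Nat.log b a := Nat.le_log_of_pow_le (by omega) h2
        have h6 : Nat.log b a < l := Nat.log_lt_of_lt_pow ha0 h3
        omega
      obtain ⟨v, hv1, hv2⟩ := exists_word hb h4
      refine ⟨v, ?_, hv2⟩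
      rw [hW, mem_filter]
      refine ⟨mem_univ _, ?_⟩
      have := complete a h1
      rw [h4] at this
      rw [hv1]
      exact this
    have hsub : G ⊆ W.image (val b) := by
      intro a ha
      obtain ⟨v, hv, hva⟩ := hw' a ha
      exact mem_image.2 ⟨v, hv, hva⟩
    exact (card_le_card hsub).trans card_image_le
  set Lg := Nat.log 2 (2 * K) with hLg
  -- logarithms
  have hreal : (b : ℝ) ^ (L / (2 * h)) ≤ ((w : ℝ) ^ k *
      ((Fintype.card Q : ℝ) + 1) ^ (T l / w + k)) * ((b : ℝ) ^ (2 * w)) ^ Lg := by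
    refine hGc.trans ?_
    have h1 : (#G : ℝ) ≤ #W := by exact_mod_cast hGW
    refine h1.trans ?_
    have h2 : ((#W : ℕ) : ℝ) ≤ (((w ^ k * (Fintype.card Q + 1) ^ (T l / w + k)) *
      (b ^ (2 * w)) ^ Lg : ℕ) : ℝ) := by exact_mod_cast hcard
    refine h2.trans (le_of_eq ?_)
    push_cast
    rfl
  have hw0 : (0 : ℝ) < w := by positivity
  have hlogs : L / (2 * h) * lam ≤ (k * Real.log w + ((T l / w + k : ℕ) : ℝ) * lq) +
      Lg * (((2 * w : ℕ) : ℝ) * lam) := by
    have h1 := Real.log_le_log (Real.rpow_pos_of_pos (by linarith) _) hreal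
    rw [Real.log_rpow (by linarith), Real.log_mul (by positivity) (by positivity),
      Real.log_mul (by positivity) (by positivity),
      Real.log_pow, Real.log_pow, Real.log_pow, Real.log_pow] at h1
    exact h1
  have b2 : (k : ℝ) * Real.log w ≤ κ * L := by
    set z : ℝ := 2 * L / k with hz
    have hz0 : 0 < z := by positivity
    have h1 : Real.log w ≤ 2 * Real.sqrt z := by
      have h2 : Real.log w ≤ Real.log z := Real.log_le_log hw0 hwL
      have h3 : Real.log z = 2 * Real.log (Real.sqrt z) := by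
        rw [Real.log_sqrt hz0.le]; ring
      have h4 := Real.log_le_sub_one_of_pos (Real.sqrt_pos.2 hz0)
      linarith
    refine (mul_le_mul_of_nonneg_left h1 (by positivity)).trans ?_
    refine le_of_pow_le_pow_left₀ two_ne_zero (by positivity) ?_
    have h5 : ((k : ℝ) * (2 * Real.sqrt z)) ^ 2 = 8 * k * L := by
      rw [mul_pow, mul_pow, Real.sq_sqrt hz0.le, hz]
      field_simp
      norm_num
    rw [h5]
    have h6 : 8 * (k : ℝ) ≤ κ ^ 2 * L := by
      rw [hη] at hkL
      linarith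
    calc 8 * (k : ℝ) * L ≤ κ ^ 2 * L * L := mul_le_mul_of_nonneg_right h6 (by positivity)
      _ = (κ * L) ^ 2 := by ring
  have b3 : ((T l / w + k : ℕ) : ℝ) * lq ≤ κ * L := by
    have h1 : ((T l / w + k : ℕ) : ℝ) ≤ η * L := by
      have h2 : ((T l / w : ℕ) : ℝ) ≤ t / w := Nat.cast_div_le
      have h3 : t / w ≤ t * (k / L) := by
        rw [div_le_iff₀ hw0]
        have h4 : 1 ≤ k / L * w := by
          have : L / k * (k / L) = 1 := by field_simp
          calc (1 : ℝ) = k / L * (L / k) := by rw [mul_comm]; exact this.symm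
            _ ≤ k / L * w := mul_le_mul_of_nonneg_left hwL' (by positivity)
        calc t = t * 1 := (mul_one t).symm
          _ ≤ t * (k / L * w) := mul_le_mul_of_nonneg_left h4 ht0
          _ = t * (k / L) * w := by ring
      push_cast
      have h5 : t * (k / L) + k = k * (t + L) / L := by field_simp
      have h6 : k * (t + L) / L ≤ η * L := by
        rw [div_le_iff₀ (by positivity)]
        calc (k : ℝ) * (t + L) ≤ η * X * (t + L) := mul_le_mul_of_nonneg_right hkX (by positivity)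
          _ = η * L * L := by rw [mul_assoc, hXe]; ring
      linarith
    have h7 : κ * lq ≤ 1 := by
      have : κ * (lq + 1) ≤ 1 / 16 := by rw [hκ2]; exact hκ3
      nlinarith
    calc ((T l / w + k : ℕ) : ℝ) * lq ≤ η * L * lq := mul_le_mul_of_nonneg_right h1 hlq0
      _ = κ * L * (κ * lq) / 8 := by rw [hη]; ring
      _ ≤ κ * L := by
        have : 0 < κ * L := by positivity
        have h8 : κ * L * (κ * lq) ≤ κ * L * 1 := mul_le_mul_of_nonneg_left h7 this.le
        linarith
  have b4 : (Lg : ℝ) * (((2 * w : ℕ) : ℝ) * lam) ≤ Lg * (4 * L / k * lam) := by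
    apply mul_le_mul_of_nonneg_left _ (Nat.cast_nonneg _)
    apply mul_le_mul_of_nonneg_right _ hlam0.le
    push_cast
    have : 4 * L / k = 2 * (2 * L / k) := by ring
    rw [this]
    linarith
  -- conclusion
  have hκL : κ * L ≤ lam / (16 * h) * L := by
    apply mul_le_mul_of_nonneg_right _ (by positivity)
    exact hκ4.trans (div_le_div_of_nonneg_right hlam2 (by positivity))
  have hmain : (k : ℝ) / (16 * h) ≤ Lg := by
    have h1 : L / h * (lam / 4) ≤ Lg * (4 * L / k * lam) := by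
      have h2 : L / (2 * h) * lam - 2 * (lam / (16 * h) * L) ≤ Lg * (4 * L / k * lam) := by linarith
      refine le_trans ?_ h2
      have h3 : L / (2 * h) * lam - 2 * (lam / (16 * h) * L) = L / h * (lam * 3 / 8) := by
        field_simp; ring
      rw [h3]
      apply mul_le_mul_of_nonneg_left _ (by positivity)
      linarith
    have h4 : (k : ℝ) / (16 * h) * (4 * L / k * lam) = L / h * (lam / 4) := by
      field_simp; ring
    rw [← h4] at h1
    exact le_of_mul_le_mul_right h1 (by positivity)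
  have hk2 : η * X / 2 ≤ k := by linarith
  have hXLg : η * X / (32 * h) ≤ Lg := by
    refine le_trans ?_ hmain
    calc η * X / (32 * h) = (η * X / 2) / (16 * h) := by field_simp; norm_num
      _ ≤ (k : ℝ) / (16 * h) := div_le_div_of_nonneg_right hk2 (by positivity)
  have hKpos : 2 * K ≠ 0 := by
    intro h0
    have h1 : Lg = 0 := by rw [hLg, h0]; simp
    rw [h1, Nat.cast_zero] at hXLg
    have : 0 < η * X / (32 * h) := by positivity
    linarith
  have hpow : (2 : ℝ) ^ Lg ≤ 2 * (K : ℝ) := by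
    have := Nat.pow_log_le_self 2 hKpos
    exact_mod_cast this
  refine ⟨n, hn, ?_⟩
  have hsubR : Reps A' h n ⊆ Reps A h n := by
    rintro z ⟨h1, h2, h3⟩
    exact ⟨h1, fun a ha => (h2 a ha).1, h3⟩
  have hKle : (K : ℝ) ≤ ((Reps A h n).ncard : ℝ) := by
    have := Set.ncard_le_ncard hsubR (reps_finite A h n)
    exact_mod_cast this
  calc Real.exp (Real.log 2 * η / (32 * h) * X) = Real.exp (Real.log 2 * (η * X / (32 * h))) := by
        congr 1; ring
    _ ≤ Real.exp (Real.log 2 * Lg) :=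
        Real.exp_le_exp.2 (mul_le_mul_of_nonneg_left hXLg hlog2.le)
    _ = (2 : ℝ) ^ Lg := by
        rw [← Real.rpow_natCast, Real.rpow_def_of_pos (by norm_num)]
    _ ≤ 2 * (K : ℝ) := hpow
    _ ≤ 2 * ((Reps A h n).ncard : ℝ) := by linarith

/-- Coverings by sets which are closed under mixing with respect to partitions of the places. -/
theorem cover_main {A : Set ℕ} {h K : ℕ} (hh : 2 ≤ h)
    (hB : ∃ N : ℕ, ∀ n : ℕ, N ≤ n → (Reps A h n).Nonempty)
    (hK : ∀ n, (Reps A h n).ncard ≤ K) {b : ℕ} (hb : 2 ≤ b) :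
    ∃ L₀ : ℕ, ∀ l, L₀ ≤ l → ∀ (m M : ℕ) (c : Fin M → Fin l → Fin l)
      (P : Fin M → Set (Fin l → Fin b)), (∀ i j, #{x | c i x = j} ≤ m) →
      (∀ i, MixClosed (c i) (P i)) → (∀ i, ∀ v ∈ P i, val b v ∈ A) →
      (∀ v : Fin l → Fin b, val b v ∈ A → ∃ i, v ∈ P i) →
      b ^ l ≤ 2 * (M * b ^ (m * Nat.log 2 (2 * K))) ^ h := by
  classical
  obtain ⟨N₀, hN₀⟩ := basis_count hB
  refine ⟨N₀, fun l hl m M c P hm hP hA hcov => ?_⟩
  have hR := fun n => pairs_le hh hK n
  have h1 : ∀ i, #(univ.filter (fun v => v ∈ P i)) ≤ b ^ (m * Nat.log 2 (2 * K)) := by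
    intro i
    rw [pow_mul]
    refine mix_card hR (c i) (hm i) _ ?_ ?_ (by omega)
    · have : ((univ.filter (fun v => v ∈ P i) : Finset (Fin l → Fin b)) : Set (Fin l → Fin b)) =
        P i := by
        ext v; simp
      rw [this]
      exact hP i
    · intro v hv
      exact hA i v (mem_filter.1 hv).2
  let G : Finset ℕ := (univ.biUnion (fun i => univ.filter (fun v => v ∈ P i))).image (val b)
  have hG := hN₀ (b ^ l) (hl.trans (Nat.lt_pow_self (by omega)).le) G (by
    intro a ha hlt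
    obtain ⟨v, rfl⟩ := val_surj hlt
    obtain ⟨i, hi⟩ := hcov v ha
    exact mem_image.2 ⟨v, mem_biUnion.2 ⟨i, mem_univ _, mem_filter.2 ⟨mem_univ _, hi⟩⟩, rfl⟩)
  refine hG.trans (Nat.mul_le_mul_left _ (Nat.pow_le_pow_left ?_ h))
  refine card_image_le.trans (card_biUnion_le.trans ?_)
  refine (sum_le_card_nsmul _ _ _ (fun i _ => h1 i)).trans ?_
  rw [smul_eq_mul, card_univ, Fintype.card_fin]

end Pool.Agent.V7H79.CX
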