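import Pool.Agent.V7H79.CX.Rep

/-!
Nondeterministic one-tape Turing machines: two computations with the same crossing sequence at a cut
can be mixed (the left part of the tape from the first one and the right part from the second one).
-/

set_option autoImplicit false

namespace Pool.Agent.V7H79.CX

/-- A nondeterministic one-tape Turing machine with tape alphabet `Γ` and set of states `Q`.
`step q a q' a' d`: in the state `q`, reading `a`, the machine may write `a'`, move the head by `d`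
and pass to the state `q'`. -/
structure Machine (Γ Q : Type) where
  start : Q
  accept : Set Q
  blank : Γ
  step : Q → Γ → Q → Γ → ℤ → Prop
  move : ∀ q a q' a' d, step q a q' a' d → |d| ≤ 1

/-- configurations: state, position of the head, tape -/
structure Config (Γ Q : Type) where
  q : Q
  p : ℤ
  τ : ℤ → Γ

variable {Γ Q : Type}

/-- one step of the machine -/
def Step (M : Machine Γ Q) (c d : Config Γ Q) : Prop :=
  M.step c.q (c.τ c.p) d.q (d.τ c.p) (d.p - c.p) ∧ ∀ j, j ≠ c.p → d.τ j = c.τ j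

/-- computations -/
inductive Path (M : Machine Γ Q) : Config Γ Q → Config Γ Q → Type
  | nil (c : Config Γ Q) : Path M c c
  | cons {c d e : Config Γ Q} (h : Step M c d) (r : Path M d e) : Path M c e

variable {M : Machine Γ Q}

theorem Step.near {c d : Config Γ Q} (h : Step M c d) : |c.p - d.p| ≤ 1 := by
  have := M.move _ _ _ _ _ h.1
  rw [abs_sub_comm]
  exact this

/-- number of steps -/
def Path.len : ∀ {c e : Config Γ Q}, Path M c e → ℕ
  | _, _, .nil _ => 0
  | _, _, .cons _ r => r.len + 1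

open Classical in
/-- the crossing sequence at the boundary of the set `Y` of cells: the states after the steps which
enter or leave `Y` -/
noncomputable def Path.seq (Y : ℤ → Prop) : ∀ {c e : Config Γ Q}, Path M c e → List Q
  | _, _, .nil _ => []
  | _, _, .cons (c := c) (d := d) _ r => if (Y c.p ↔ Y d.p) then r.seq Y else d.q :: r.seq Y

theorem Path.seq_nil (Y : ℤ → Prop) (c : Config Γ Q) : (Path.nil (M := M) c).seq Y = [] := rfl

theorem Path.seq_same {Y : ℤ → Prop} {c d e : Config Γ Q} (h : Step M c d) (r : Path M d e)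
    (hY : Y c.p ↔ Y d.p) : (Path.cons h r).seq Y = r.seq Y := by
  simp only [Path.seq, if_pos hY]

theorem Path.seq_cross {Y : ℤ → Prop} {c d e : Config Γ Q} (h : Step M c d) (r : Path M d e)
    (hY : ¬ (Y c.p ↔ Y d.p)) : (Path.cons h r).seq Y = d.q :: r.seq Y := by
  simp only [Path.seq, if_neg hY]

theorem Path.seq_congr {Y : ℤ → Prop} {c d e c' d' e' : Config Γ Q} (h : Step M c d)
    (r : Path M d e) (h' : Step M c' d') (r' : Path M d' e') (h1 : c.p = c'.p) (h2 : d.p = d'.p)
    (h3 : d.q = d'.q) (h4 : r.seq Y = r'.seq Y) : (Path.cons h r).seq Y = (Path.cons h' r').seq Y := by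
  by_cases hY : Y c.p ↔ Y d.p
  · have hY' : Y c'.p ↔ Y d'.p := by rw [← h1, ← h2]; exact hY
    simp only [Path.seq, if_pos hY, if_pos hY', h4]
  · have hY' : ¬ (Y c'.p ↔ Y d'.p) := by rw [← h1, ← h2]; exact hY
    simp only [Path.seq, if_neg hY, if_neg hY', h4, h3]

theorem Path.seq_not (Y : ℤ → Prop) : ∀ {c e : Config Γ Q} (r : Path M c e),
    r.seq (fun j => ¬ Y j) = r.seq Y
  | _, _, .nil _ => rfl
  | _, _, .cons (c := c) (d := d) h r => by
    have ih := Path.seq_not Y r
    by_cases hY : Y c.p ↔ Y d.p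
    · rw [Path.seq_same h r hY, Path.seq_same (Y := fun j => ¬ Y j) h r (not_congr hY), ih]
    · rw [Path.seq_cross h r hY, Path.seq_cross (Y := fun j => ¬ Y j) h r
        (fun hh => hY (not_iff_not.1 hh)), ih]

/-- the boundary of `S` is one pair of cells -/
def Uniq (S : ℤ → Prop) : Prop :=
  ∀ a b a' b' : ℤ, |a - b| ≤ 1 → |a' - b'| ≤ 1 → S a → ¬ S b → S a' → ¬ S b' → a = a' ∧ b = b'

/-- `Y` is constant outside of `S` -/
def Out (S Y : ℤ → Prop) : Prop := ∀ a b : ℤ, |a - b| ≤ 1 → ¬ S a → ¬ S b → (Y a ↔ Y b)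

/-- `Y` is constant in `S` -/
def Inn (S Y : ℤ → Prop) : Prop := ∀ a b : ℤ, |a - b| ≤ 1 → S a → S b → (Y a ↔ Y b)

theorem Uniq.not {S : ℤ → Prop} (h : Uniq S) : Uniq (fun j => ¬ S j) := by
  intro a b a' b' h1 h2 h3 h4 h5 h6
  rw [not_not] at h4 h6
  obtain ⟨e1, e2⟩ := h b a b' a' (by rw [abs_sub_comm]; exact h1) (by rw [abs_sub_comm]; exact h2)
    h4 h3 h6 h5
  exact ⟨e2, e1⟩

open Classical in
/-- the mixture of two configurations: the cells in `S` are those of the first one -/
noncomputable def mixc (S : ℤ → Prop) (c₁ c₂ : Config Γ Q) : Config Γ Q where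
  q := if S c₁.p then c₁.q else c₂.q
  p := if S c₁.p then c₁.p else c₂.p
  τ j := if S j then c₁.τ j else c₂.τ j

theorem mixc_swap {S : ℤ → Prop} {c₁ c₂ : Config Γ Q} (h : S c₁.p ↔ S c₂.p) :
    mixc (fun j => ¬ S j) c₂ c₁ = mixc S c₁ c₂ := by
  unfold mixc
  congr 1
  · by_cases hS : S c₁.p
    · rw [if_neg (not_not.2 (h.1 hS)), if_pos hS]
    · rw [if_pos (fun hh => hS (h.2 hh)), if_neg hS]
  · by_cases hS : S c₁.p
    · rw [if_neg (not_not.2 (h.1 hS)), if_pos hS]
    · rw [if_pos (fun hh => hS (h.2 hh)), if_neg hS]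
  · funext j
    by_cases hS : S j
    · rw [if_neg (not_not.2 hS), if_pos hS]
    · rw [if_pos hS, if_neg hS]

/-- if the second head works in `S` then nothing changes -/
theorem mixc_right {S : ℤ → Prop} {c₁ c₂ d₂ : Config Γ Q} (h1 : S c₁.p) (h2 : S c₂.p)
    (h : Step M c₂ d₂) : mixc S c₁ d₂ = mixc S c₁ c₂ := by
  unfold mixc
  congr 1
  · rw [if_pos h1, if_pos h1]
  · rw [if_pos h1, if_pos h1]
  · funext j
    by_cases hS : S j
    · rw [if_pos hS, if_pos hS]
    · rw [if_neg hS, if_neg hS]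
      exact h.2 j (fun e => hS (e ▸ h2))

/-- the statement of the mixing theorem -/
def Good (S : ℤ → Prop) {c₁ d₁ c₂ d₂ : Config Γ Q} (r₁ : Path M c₁ d₁) (r₂ : Path M c₂ d₂) : Prop :=
  (S d₁.p ↔ S d₂.p) ∧ ∃ r : Path M (mixc S c₁ c₂) (mixc S d₁ d₂),
    (∀ Y, Out S Y → r.seq Y = r₁.seq Y) ∧ (∀ Y, Inn S Y → r.seq Y = r₂.seq Y)

theorem Good.swap {S : ℤ → Prop} {c₁ d₁ c₂ d₂ : Config Γ Q} {r₁ : Path M c₁ d₁}
    {r₂ : Path M c₂ d₂} (h0 : S c₁.p ↔ S c₂.p) (h : Good (fun j => ¬ S j) r₂ r₁) : Good S r₁ r₂ := by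
  obtain ⟨h1, r, h2, h3⟩ := h
  have h1' : S d₁.p ↔ S d₂.p := (not_iff_not.1 h1).symm
  refine ⟨h1', ?_⟩
  rw [← mixc_swap h0, ← mixc_swap h1']
  refine ⟨r, fun Y hY => h3 Y ?_, fun Y hY => h2 Y ?_⟩
  · intro a b hab ha hb
    exact hY a b hab ha hb
  · intro a b hab ha hb
    rw [not_not] at ha hb
    exact hY a b hab ha hb

theorem mixing_aux (n : ℕ)
    (ih : ∀ (S : ℤ → Prop), Uniq S → ∀ {c₁ d₁ c₂ d₂ : Config Γ Q} (r₁ : Path M c₁ d₁)
      (r₂ : Path M c₂ d₂), r₁.len + r₂.len < n → (S c₁.p ↔ S c₂.p) → r₁.seq S = r₂.seq S →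
      Good S r₁ r₂)
    (S : ℤ → Prop) (hS : Uniq S) {c₁ d₁ c₂ d₂ : Config Γ Q} (r₁ : Path M c₁ d₁)
    (r₂ : Path M c₂ d₂) (hn : r₁.len + r₂.len = n) (h1 : S c₁.p) (h2 : S c₂.p)
    (hseq : r₁.seq S = r₂.seq S) : Good S r₁ r₂ := by
  -- advance the second computation inside of `S`
  have adv : ∀ {c₂' : Config Γ Q} (h : Step M c₂ c₂') (r₂' : Path M c₂' d₂), r₂ = .cons h r₂' →
      S c₂'.p → Good S r₁ r₂ := by
    intro c₂' h r₂' e h3
    subst e
    have hs : (Path.cons h r₂').seq S = r₂'.seq S :=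
      Path.seq_same h r₂' ⟨fun _ => h3, fun _ => h2⟩
    rw [hs] at hseq
    have hlen : r₁.len + r₂'.len < n := by
      rw [← hn]
      show r₁.len + r₂'.len < r₁.len + (r₂'.len + 1)
      omega
    obtain ⟨g1, hex⟩ := ih S hS r₁ r₂' hlen ⟨fun _ => h3, fun _ => h1⟩ hseq
    rw [mixc_right h1 h2 h] at hex
    obtain ⟨r, g2, g3⟩ := hex
    refine ⟨g1, r, g2, fun Y hY => ?_⟩
    rw [g3 Y hY, Path.seq_same h r₂' (hY _ _ h.near h2 h3)]
  cases r₁ with
  | nil =>
    cases r₂ with
    | nil =>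
      exact ⟨⟨fun _ => h2, fun _ => h1⟩, Path.nil _, fun Y _ => rfl, fun Y _ => rfl⟩
    | cons h r₂' =>
      rename_i c₂'
      by_cases h3 : S c₂'.p
      · exact adv h r₂' rfl h3
      · exfalso
        rw [Path.seq_cross h r₂' (fun hh => h3 (hh.1 h2)), Path.seq_nil] at hseq
        exact List.cons_ne_nil _ _ hseq.symm
  | cons h r₁' =>
    rename_i c₁'
    by_cases h3 : S c₁'.p
    · -- the first computation moves inside of `S`
      have hs : (Path.cons h r₁').seq S = r₁'.seq S :=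
        Path.seq_same h r₁' ⟨fun _ => h3, fun _ => h1⟩
      rw [hs] at hseq
      have hlen : r₁'.len + r₂.len < n := by
        rw [← hn]
        show r₁'.len + r₂.len < (r₁'.len + 1) + r₂.len
        omega
      obtain ⟨g1, r, g2, g3⟩ := ih S hS r₁' r₂ hlen ⟨fun _ => h2, fun _ => h3⟩ hseq
      have hstep : Step M (mixc S c₁ c₂) (mixc S c₁' c₂) := by
        refine ⟨?_, ?_⟩
        · simp only [mixc, h1, h3, if_true]
          exact h.1
        · intro j hj
          simp only [mixc, h1, if_true] at hj ⊢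
          by_cases hSj : S j
          · rw [if_pos hSj, if_pos hSj]
            exact h.2 j hj
          · rw [if_neg hSj, if_neg hSj]
      have e1 : (mixc S c₁ c₂).p = c₁.p := by simp only [mixc, h1, if_true]
      have e2 : (mixc S c₁' c₂).p = c₁'.p := by simp only [mixc, h3, if_true]
      have e3 : (mixc S c₁' c₂).q = c₁'.q := by simp only [mixc, h3, if_true]
      refine ⟨g1, Path.cons hstep r, fun Y hY => ?_, fun Y hY => ?_⟩
      · exact Path.seq_congr hstep r h r₁' e1 e2 e3 (g2 Y hY)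
      · rw [Path.seq_same hstep r (by rw [e1, e2]; exact hY _ _ h.near h1 h3), g3 Y hY]
    · -- the first computation leaves `S`
      have hs : (Path.cons h r₁').seq S = c₁'.q :: r₁'.seq S :=
        Path.seq_cross h r₁' (fun hh => h3 (hh.1 h1))
      rw [hs] at hseq
      cases r₂ with
      | nil =>
        exfalso
        rw [Path.seq_nil] at hseq
        exact List.cons_ne_nil _ _ hseq
      | cons h' r₂' =>
        rename_i c₂'
        by_cases h4 : S c₂'.p
        · exact adv h' r₂' rfl h4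
        · rw [Path.seq_cross h' r₂' (fun hh => h4 (hh.1 h2)), List.cons.injEq] at hseq
          obtain ⟨hq, hseq'⟩ := hseq
          have hlen : r₁'.len + r₂'.len < n := by
            rw [← hn]
            show r₁'.len + r₂'.len < (r₁'.len + 1) + (r₂'.len + 1)
            omega
          obtain ⟨p1, p2⟩ := hS _ _ _ _ h.near h'.near h1 h3 h2 h4
          obtain ⟨g1, r, g2, g3⟩ := ih S hS r₁' r₂' hlen
            ⟨fun hh => absurd hh h3, fun hh => absurd hh h4⟩ hseq'
          have hstep : Step M (mixc S c₁ c₂) (mixc S c₁' c₂') := by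
            refine ⟨?_, ?_⟩
            · simp only [mixc, h1, h3, if_true, if_false, ← hq, ← p2]
              exact h.1
            · intro j hj
              simp only [mixc, h1, if_true] at hj ⊢
              by_cases hSj : S j
              · rw [if_pos hSj, if_pos hSj]
                exact h.2 j hj
              · rw [if_neg hSj, if_neg hSj]
                exact h'.2 j (fun e => hSj (e ▸ h2))
          have e1 : (mixc S c₁ c₂).p = c₁.p := by simp only [mixc, h1, if_true]
          have e2 : (mixc S c₁' c₂').p = c₂'.p := by simp only [mixc, h3, if_false]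
          have e3 : (mixc S c₁' c₂').q = c₂'.q := by simp only [mixc, h3, if_false]
          refine ⟨g1, Path.cons hstep r, fun Y hY => ?_, fun Y hY => ?_⟩
          · exact Path.seq_congr hstep r h r₁' e1 (e2.trans p2.symm) (e3.trans hq.symm) (g2 Y hY)
          · exact Path.seq_congr hstep r h' r₂' (e1.trans p1) e2 e3 (g3 Y hY)

theorem mixing : ∀ (n : ℕ) (S : ℤ → Prop), Uniq S → ∀ {c₁ d₁ c₂ d₂ : Config Γ Q}
    (r₁ : Path M c₁ d₁) (r₂ : Path M c₂ d₂), r₁.len + r₂.len = n → (S c₁.p ↔ S c₂.p) →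
    r₁.seq S = r₂.seq S → Good S r₁ r₂ := by
  intro n
  induction n using Nat.strong_induction_on with
  | _ n ih =>
    intro S hS c₁ d₁ c₂ d₂ r₁ r₂ hn h0 hseq
    by_cases h1 : S c₁.p
    · exact mixing_aux n (fun S' hS' {_ _ _ _} r r' hlt h h' => ih _ hlt S' hS' r r' rfl h h')
        S hS r₁ r₂ hn h1 (h0.1 h1) hseq
    · apply Good.swap h0
      refine mixing_aux n (fun S' hS' {_ _ _ _} r r' hlt h h' => ih _ hlt S' hS' r r' rfl h h')
        (fun j => ¬ S j) hS.not r₂ r₁ (by omega) (fun hh => h1 (h0.2 hh)) h1 ?_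
      rw [Path.seq_not, Path.seq_not, hseq]

end Pool.Agent.V7H79.CX
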