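import Pool.Agent.V7H79.CF.Main

/-!
Bounded representation functions: pairs, the number of elements of a basis, and sets of words closed
under mixing.
-/

set_option autoImplicit false

namespace Pool.Agent.V7H79.CX

open Pool.Agent.V7H79.CF Finset

/-- the ordered pairs of elements of `A` with sum `n` -/
def Pairs (A : Set ℕ) (n : ℕ) : Set (ℕ × ℕ) := {p | p.1 ∈ A ∧ p.2 ∈ A ∧ p.1 + p.2 = n}

theorem pairs_finite (A : Set ℕ) (n : ℕ) : (Pairs A n).Finite := by
  apply Set.Finite.subset (Finset.finite_toSet (range (n + 1) ×ˢ range (n + 1)))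
  rintro p ⟨_, _, hp⟩
  rw [mem_coe, mem_product, mem_range, mem_range]
  omega

theorem pairs_le {A : Set ℕ} {h K : ℕ} (hh : 2 ≤ h) (hK : ∀ n, (Reps A h n).ncard ≤ K) (n : ℕ) :
    (Pairs A n).ncard ≤ 2 * K := by
  classical
  rcases (Pairs A n).eq_empty_or_nonempty with h0 | ⟨p0, hp0⟩
  · rw [h0, Set.ncard_empty]; exact Nat.zero_le _
  set a := p0.1 with ha
  have haA : a ∈ A := hp0.1
  have key : ∀ S : Set (ℕ × ℕ), S ⊆ Pairs A n →
      ((∀ p ∈ S, p.1 ≤ p.2) ∨ (∀ p ∈ S, p.2 ≤ p.1)) → S.ncard ≤ K := by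
    intro S hS hor
    refine le_trans ?_ (hK (n + (h - 2) * a))
    refine Set.ncard_le_ncard_of_injOn
      (fun p : ℕ × ℕ => p.1 ::ₘ p.2 ::ₘ Multiset.replicate (h - 2) a) ?_ ?_ (reps_finite A h _)
    · intro p hp
      obtain ⟨h1, h2, h3⟩ := hS hp
      refine ⟨?_, ?_, ?_⟩
      · rw [Multiset.card_cons, Multiset.card_cons, Multiset.card_replicate]; omega
      · intro x hx
        rw [Multiset.mem_cons, Multiset.mem_cons] at hx
        rcases hx with rfl | rfl | hx
        · exact h1
        · exact h2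
        · rw [Multiset.eq_of_mem_replicate hx]; exact haA
      · rw [Multiset.sum_cons, Multiset.sum_cons, Multiset.sum_replicate, smul_eq_mul]
        omega
    · intro p hp q hq hpq
      obtain ⟨_, _, h3⟩ := hS hp
      obtain ⟨_, _, h3'⟩ := hS hq
      have e : ({p.1, p.2} : Multiset ℕ) + Multiset.replicate (h - 2) a =
          ({q.1, q.2} : Multiset ℕ) + Multiset.replicate (h - 2) a := by
        simpa using hpq
      have e2 : ({p.1, p.2} : Multiset ℕ) = {q.1, q.2} := add_right_cancel e
      have e3 : p.1 ∈ ({q.1, q.2} : Multiset ℕ) := by rw [← e2]; simp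
      have e4 : p.1 = q.1 ∨ p.1 = q.2 := by simpa using e3
      rcases e4 with e5 | e5
      · exact Prod.ext e5 (by omega)
      · rcases hor with hor | hor
        · have := hor p hp; have := hor q hq
          exact Prod.ext (by omega) (by omega)
        · have := hor p hp; have := hor q hq
          exact Prod.ext (by omega) (by omega)
  have h1 : Pairs A n = {p ∈ Pairs A n | p.1 ≤ p.2} ∪ {p ∈ Pairs A n | p.2 ≤ p.1} := by
    ext p
    simp only [Set.mem_union, Set.mem_setOf_eq]
    constructor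
    · intro hp
      rcases le_total p.1 p.2 with h | h
      · exact Or.inl ⟨hp, h⟩
      · exact Or.inr ⟨hp, h⟩
    · rintro (h | h) <;> exact h.1
  rw [h1]
  have h2 := key {p ∈ Pairs A n | p.1 ≤ p.2} (fun p hp => hp.1) (Or.inl fun p hp => hp.2)
  have h3 := key {p ∈ Pairs A n | p.2 ≤ p.1} (fun p hp => hp.1) (Or.inr fun p hp => hp.2)
  refine (Set.ncard_union_le _ _).trans ?_
  omega

theorem basis_count {A : Set ℕ} {h : ℕ} (hb : ∃ N : ℕ, ∀ n : ℕ, N ≤ n → (Reps A h n).Nonempty) :
    ∃ N₀ : ℕ, ∀ N : ℕ, N₀ ≤ N → ∀ G : Finset ℕ, (∀ a ∈ A, a < N → a ∈ G) → N ≤ 2 * #G ^ h := by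
  classical
  obtain ⟨N₁, hN⟩ := hb
  refine ⟨2 * N₁, fun N hN2 G hG => ?_⟩
  have hsub : Finset.Ico N₁ N ⊆
      (Fintype.piFinset (fun _ : Fin h => G)).image (fun f => ∑ j, f j) := by
    intro n hn
    rw [Finset.mem_Ico] at hn
    obtain ⟨s, hs1, hs2, hs3⟩ := hN n hn.1
    obtain ⟨l, rfl⟩ := Quot.exists_rep s
    have hl : l.length = h := hs1
    subst hl
    rw [Finset.mem_image]
    refine ⟨fun j => l.get j, ?_, ?_⟩
    · rw [Fintype.mem_piFinset]
      intro j
      have hj : l.get j ∈ l := List.get_mem l j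
      refine hG _ (hs2 _ hj) (lt_of_le_of_lt ?_ hn.2)
      have hs3' : l.sum = n := hs3
      rw [← hs3']
      exact List.le_sum_of_mem hj
    · have hs3' : l.sum = n := hs3
      rw [← hs3']
      simp only [List.get_eq_getElem]
      rw [← List.sum_ofFn]
      congr 1
      exact List.ofFn_getElem
  have h1 := Finset.card_le_card hsub
  rw [Nat.card_Ico] at h1
  have h2 : #((Fintype.piFinset (fun _ : Fin h => G)).image (fun f => ∑ j, f j)) ≤ #G ^ h := by
    refine Finset.card_image_le.trans ?_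
    rw [Fintype.card_piFinset_const]
  omega

/-- `P` is closed under mixing with respect to the partition `c` of the places. -/
def MixClosed {ι κ α : Type} [DecidableEq κ] (c : ι → κ) (P : Set (ι → α)) : Prop :=
  ∀ w ∈ P, ∀ w' ∈ P, ∀ i : κ, (fun j => if c j = i then w j else w' j) ∈ P

theorem MixClosed.glue {ι κ α : Type} [DecidableEq κ] [Fintype κ] {c : ι → κ} {P : Set (ι → α)}
    (hP : MixClosed c P) (hne : P.Nonempty) (f : κ → ι → α) (hf : ∀ i, f i ∈ P) :
    (fun j => f (c j) j) ∈ P := by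
  obtain ⟨w0, hw0⟩ := hne
  have key : ∀ S : Finset κ, (fun j => if c j ∈ S then f (c j) j else w0 j) ∈ P := by
    intro S
    induction S using Finset.induction_on with
    | empty => simpa using hw0
    | insert i S hi ih =>
      have h1 := hP _ (hf i) _ ih i
      convert h1 using 1
      funext j
      by_cases hj : c j = i
      · rw [if_pos hj, if_pos (by rw [hj]; exact Finset.mem_insert_self i S), hj]
      · rw [if_neg hj]
        have : c j ∈ insert i S ↔ c j ∈ S := by
          rw [Finset.mem_insert]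
          exact ⟨fun h => h.resolve_left hj, Or.inr⟩
        simp only [this]
  have := key Finset.univ
  simpa using this

/-- the number with the digits `w` in base `b`, least significant first -/
def val (b : ℕ) {l : ℕ} (w : Fin l → Fin b) : ℕ := ∑ j, (w j : ℕ) * b ^ (j : ℕ)

theorem val_eq (b : ℕ) {l : ℕ} (w : Fin l → Fin b) :
    val b w = (finFunctionFinEquiv w : ℕ) := (finFunctionFinEquiv_apply w).symm

theorem val_inj {b l : ℕ} {w w' : Fin l → Fin b} (h : val b w = val b w') : w = w' := by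
  rw [val_eq, val_eq] at h
  exact finFunctionFinEquiv.injective (Fin.ext h)

theorem val_lt {b l : ℕ} (w : Fin l → Fin b) : val b w < b ^ l := by
  rw [val_eq]
  exact (finFunctionFinEquiv w).2

theorem val_surj {b l n : ℕ} (h : n < b ^ l) : ∃ w : Fin l → Fin b, val b w = n := by
  refine ⟨finFunctionFinEquiv.symm ⟨n, h⟩, ?_⟩
  rw [val_eq, Equiv.apply_symm_apply]

/-- A set of words that is closed under mixing and represents elements of `A` is small. -/
theorem mix_card {A : Set ℕ} {R : ℕ} (hR : ∀ n, (Pairs A n).ncard ≤ R) {b l m : ℕ} {κ : Type}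
    [Fintype κ] [DecidableEq κ] (c : Fin l → κ) (hm : ∀ i, #{j | c j = i} ≤ m)
    (P : Finset (Fin l → Fin b)) (hP : MixClosed c (P : Set (Fin l → Fin b)))
    (hA : ∀ w ∈ P, val b w ∈ A) (hb : 1 ≤ b) : #P ≤ (b ^ m) ^ (Nat.log 2 R) := by
  classical
  rcases P.eq_empty_or_nonempty with h0 | ⟨w0, hw0⟩
  · rw [h0, card_empty]; exact Nat.zero_le _
  set I : Finset κ := {i | ∃ u ∈ P, ∃ v ∈ P, ∃ j, c j = i ∧ u j ≠ v j} with hI
  have hex : ∀ i : κ, ∃ u ∈ P, ∃ v ∈ P, (i ∈ I → ∃ j, c j = i ∧ u j ≠ v j) ∧ (i ∉ I → u = v) := by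
    intro i
    by_cases hi : i ∈ I
    · have hi' := hi
      rw [hI, mem_filter] at hi'
      obtain ⟨_, u, hu, v, hv, hj⟩ := hi'
      exact ⟨u, hu, v, hv, fun _ => hj, fun h => absurd hi h⟩
    · exact ⟨w0, hw0, w0, hw0, fun h => absurd h hi, fun _ => rfl⟩
  choose u hu v hv h1 h2 using hex
  -- the words of the cube
  let a : Finset κ → (Fin l → Fin b) := fun J j => (if c j ∈ J then v (c j) else u (c j)) j
  have haP : ∀ J, a J ∈ P := by
    intro J
    have := hP.glue ⟨w0, hw0⟩ (fun i => if i ∈ J then v i else u i) (by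
      intro i
      by_cases hi : i ∈ J
      · simp only [hi, if_true]; exact hv i
      · simp only [hi, if_false]; exact hu i)
    exact this
  have hsum : ∀ J ⊆ I, val b (a J) + val b (a (I \ J)) =
      ∑ j, ((u (c j) j : ℕ) + (v (c j) j : ℕ)) * b ^ (j : ℕ) := by
    intro J hJ
    rw [val, val, ← sum_add_distrib]
    refine sum_congr rfl fun j _ => ?_
    rw [← add_mul]
    congr 1
    show ((((if c j ∈ J then v (c j) else u (c j)) j : Fin b) : ℕ) +
      (((if c j ∈ I \ J then v (c j) else u (c j)) j : Fin b) : ℕ)) = _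
    by_cases hI' : c j ∈ I
    · by_cases hJ' : c j ∈ J
      · have : c j ∉ I \ J := by rw [mem_sdiff]; exact fun h => h.2 hJ'
        rw [if_pos hJ', if_neg this]; ring
      · have : c j ∈ I \ J := mem_sdiff.2 ⟨hI', hJ'⟩
        rw [if_neg hJ', if_pos this]
    · have hJ' : c j ∉ J := fun h => hI' (hJ h)
      have : c j ∉ I \ J := by rw [mem_sdiff]; exact fun h => hI' h.1
      rw [if_neg hJ', if_neg this, h2 _ hI']
  have hcube : 2 ^ #I ≤ R := by
    rw [← card_powerset]
    refine le_trans ?_ (hR (∑ j, ((u (c j) j : ℕ) + (v (c j) j : ℕ)) * b ^ (j : ℕ)))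
    rw [← Set.ncard_coe_finset]
    refine Set.ncard_le_ncard_of_injOn (fun J => (val b (a J), val b (a (I \ J)))) ?_ ?_
      (pairs_finite A _)
    · intro J hJ
      rw [mem_coe, mem_powerset] at hJ
      exact ⟨hA _ (haP J), hA _ (haP _), hsum J hJ⟩
    · intro J hJ J' hJ' hJJ
      rw [mem_coe, mem_powerset] at hJ hJ'
      have e1 : a J = a J' := val_inj (Prod.ext_iff.1 hJJ).1
      ext i
      by_cases hi : i ∈ I
      · obtain ⟨j, rfl, hne⟩ := h1 i hi
        have e2 : (if c j ∈ J then v (c j) else u (c j)) j =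
            (if c j ∈ J' then v (c j) else u (c j)) j := congrFun e1 j
        by_cases k1 : c j ∈ J <;> by_cases k2 : c j ∈ J'
        · exact ⟨fun _ => k2, fun _ => k1⟩
        · rw [if_pos k1, if_neg k2] at e2; exact absurd e2.symm hne
        · rw [if_neg k1, if_pos k2] at e2; exact absurd e2 hne
        · exact ⟨fun h => absurd h k1, fun h => absurd h k2⟩
      · exact ⟨fun h => absurd (hJ h) hi, fun h => absurd (hJ' h) hi⟩
  have hIlog : #I ≤ Nat.log 2 R := by
    apply Nat.le_log_of_pow_le (by norm_num) hcube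
  -- counting
  have h3 : #P ≤ Fintype.card ({j : Fin l // c j ∈ I} → Fin b) := by
    rw [← card_univ]
    refine card_le_card_of_injOn (fun w => fun j : {j : Fin l // c j ∈ I} => w j)
      (fun _ _ => mem_coe.2 (mem_univ _)) ?_
    intro w hw w' hw' hww
    funext j
    by_cases hj : c j ∈ I
    · exact congrFun hww ⟨j, hj⟩
    · by_contra hne
      apply hj
      rw [hI, mem_filter]
      exact ⟨mem_univ _, w, hw, w', hw', j, rfl, hne⟩
  have h4 : Fintype.card {j : Fin l // c j ∈ I} ≤ m * Nat.log 2 R := by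
    rw [Fintype.card_subtype]
    have : ({j | c j ∈ I} : Finset (Fin l)) ⊆ I.biUnion (fun i => {j | c j = i}) := by
      intro j hj
      rw [mem_filter] at hj
      rw [mem_biUnion]
      exact ⟨c j, hj.2, by simp⟩
    refine (card_le_card this).trans (card_biUnion_le.trans ?_)
    refine (sum_le_card_nsmul I _ m (fun i _ => hm i)).trans ?_
    rw [smul_eq_mul, mul_comm]
    exact Nat.mul_le_mul_left _ hIlog
  rw [Fintype.card_fun, Fintype.card_fin] at h3
  refine h3.trans ?_
  rw [← pow_mul]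
  exact Nat.pow_le_pow_right hb h4

end Pool.Agent.V7H79.CX
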